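import Pool.Agent.Helper15.CP.Data0
import Pool.Agent.Helper85.CP.NoHole
import Pool.Agent.Helper85.CP.Tail

/-! The data of the cofinality pattern theorem exist. -/

set_option autoImplicit false

open Cardinal Ordinal Set Filter Helper23.Pcf

universe u

namespace Helper55.CP

theorem data_exists {α γ₀ : Ordinal.{u}} {κ : Cardinal.{u}} (h0 : ℵ₀ ≤ κ)
    (hα : Order.IsSuccLimit α) (hγ : α.card = ℵ_ γ₀) (hlt : γ₀ < α)
    (hκ : (α - γ₀).card = κ)
    (hv : Cardinal.lift.{u+1} κ < #(pcfS (aSet α))) (n : ℕ) (hn : 1 ≤ n) :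
    ∃ (T : Data.{u}) (H : Theta T), T.κ = κ ∧ T.μ = ℵ_ (γ₀ + n) ∧
      T.c '' H.a = ival (ℵ_ (γ₀ + n)) (ℵ_ α) :=
  data_exists_of h0 hα hγ hlt hκ n hn
    (Helper85.CP.local_nohole h0 hα hγ hlt hκ hv)
    (Helper85.CP.tail_mem h0 hα hγ hlt hκ hv n)

end Helper55.CP
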