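import Pool.Agent.Helper55.CP.Ctx
import Pool.Agent.Helper23.Pcf.Localize
import Pool.Agent.Helper23.Pcf.F5
import Pool.Agent.Helper23.Pcf.Run

/-! The data of the cofinality pattern theorem exist (from the local form of `no holes`). -/

set_option autoImplicit false

open Cardinal Ordinal Set Filter Helper23.Pcf

universe u

namespace Helper55.CP

theorem data_exists_of {α γ₀ : Ordinal.{u}} {κ : Cardinal.{u}} (h0 : ℵ₀ ≤ κ)
    (hα : Order.IsSuccLimit α) (hγ : α.card = ℵ_ γ₀) (hlt : γ₀ < α)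
    (hκ : (α - γ₀).card = κ) (n : ℕ) (hn : 1 ≤ n)
    (NH : ∀ j₀ < (Order.succ κ).ord, ∃ s < (Order.succ κ).ord, ∀ j, s ≤ j →
      j < (Order.succ κ).ord →
      ℵ_ (α + j + 1) ∈ pcfS {l | ∃ j', j₀ ≤ j' ∧ j' < s ∧ l = ℵ_ (α + j' + 1)})
    (TM : ∀ j < (Order.succ κ).ord, ℵ_ (α + j + 1) ∈ pcfS (ival (ℵ_ (γ₀ + n)) (ℵ_ α))) :
    ∃ (T : Data.{u}) (H : Theta T), T.κ = κ ∧ T.μ = ℵ_ (γ₀ + n) ∧
      T.c '' H.a = ival (ℵ_ (γ₀ + n)) (ℵ_ α) := by
  classical
  set μ : Cardinal.{u} := ℵ_ (γ₀ + n) with hμdef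
  set A : Set Cardinal.{u} := ival μ (ℵ_ α) with hA
  set K : Cardinal.{u} := Order.succ κ with hK
  have hμ0 : ℵ₀ ≤ μ := Cardinal.aleph0_le_aleph _
  have hκα : κ ≤ ℵ_ γ₀ := by
    rw [← hκ, ← hγ]
    exact Ordinal.card_le_card (Ordinal.sub_le_self α γ₀)
  have hKμ : K ≤ μ := by
    have h1 := succN_le_aleph hκα n
    refine le_trans ?_ h1
    exact succN_mono κ hn
  have hκK : κ < K := Order.lt_succ κ
  have hκμ : κ ≤ μ := hκK.le.trans hKμ
  have hμα : μ < ℵ_ α := by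
    rw [hμdef, Cardinal.aleph_lt_aleph]
    have : ∀ m : ℕ, γ₀ + m < α := by
      intro m
      induction m with
      | zero => simpa using hlt
      | succ m ih =>
        have := hα.succ_lt ih
        rw [Order.succ_eq_add_one] at this
        rw [Nat.cast_succ, ← add_assoc]
        exact this
    exact this n
  let L : Ordinal.{u} → Cardinal.{u} := fun j => ℵ_ (α + j + 1)
  have hLlt : ∀ i j, i < j → L i < L j := by
    intro i j h
    simp only [L, Cardinal.aleph_lt_aleph]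
    rw [← Order.succ_eq_add_one, ← Order.succ_eq_add_one, Order.succ_lt_succ_iff]
    exact (add_lt_add_iff_left α).2 h
  have hαL : ∀ j, ℵ_ α < L j := fun j =>
    Cardinal.aleph_lt_aleph.2 (lt_of_le_of_lt le_self_add (Order.lt_add_one_iff.2 le_rfl))
  let Lam : Set Cardinal.{u} := L '' Iio K.ord
  have hU : Small.{u} (A ∪ Lam : Set Cardinal.{u}) := inferInstance
  obtain ⟨P, c, hc, hcU⟩ := exists_index (A ∪ Lam)
  have hmem : ∀ p, c p ∈ A ∪ Lam := fun p => by rw [← hcU]; exact ⟨p, rfl⟩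
  have hreg : ∀ p, (c p).IsRegular := by
    intro p
    rcases hmem p with h | ⟨j, _, h⟩
    · exact h.1
    · rw [← h]; exact Cardinal.isRegular_aleph_add_one _
  have hμc : ∀ p, μ < c p := by
    intro p
    rcases hmem p with h | ⟨j, _, h⟩
    · exact h.2.1
    · rw [← h]; exact hμα.trans (hαL j)
  have hAκ : #A ≤ Cardinal.lift.{u+1} κ := by
    rw [← hκ]
    refine mk_le_card' fun θ hθ => ⟨lt_of_le_of_lt ?_ hθ.2.1, hθ.2.2⟩
    rw [hμdef, Cardinal.aleph_le_aleph]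
    exact le_self_add
  have hLam : #Lam ≤ Cardinal.lift.{u+1} K := by
    refine Cardinal.mk_image_le.trans ?_
    rw [Cardinal.mk_Iio_ordinal, Cardinal.card_ord]
  have hP : #P ≤ μ := by
    have h1 : Cardinal.lift.{u+1} #P ≤ #(A ∪ Lam : Set Cardinal.{u}) :=
      lift_mk_le_of_inj (fun p : P => (⟨c p, hmem p⟩ : (A ∪ Lam : Set Cardinal.{u})))
        (fun i j h => hc (Subtype.mk.inj h))
    have h2 : #(A ∪ Lam : Set Cardinal.{u}) ≤ Cardinal.lift.{u+1} μ := by
      refine (Cardinal.mk_union_le _ _).trans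
        (Cardinal.add_le_of_le (Cardinal.aleph0_le_lift.2 hμ0) ?_ ?_)
      · exact hAκ.trans (Cardinal.lift_le.2 hκμ)
      · exact hLam.trans (Cardinal.lift_le.2 hKμ)
    exact Cardinal.lift_le.1 (h1.trans h2)
  -- the points of the upper part
  have ht0 : ∀ j, j < K.ord → ∃ p, c p = L j := by
    intro j hj
    have : L j ∈ range c := by rw [hcU]; exact Or.inr ⟨j, hj, rfl⟩
    exact this
  have hKpos : (0 : Ordinal.{u}) < K.ord :=
    (Cardinal.isSuccLimit_ord (h0.trans hκK.le)).bot_lt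
  let p0 : P := (ht0 0 hKpos).choose
  let t : Ordinal.{u} → P := fun j => if h : j < K.ord then (ht0 j h).choose else p0
  have ht : ∀ j, j < K.ord → c (t j) = L j := by
    intro j hj
    have : t j = (ht0 j hj).choose := dif_pos hj
    rw [this]
    exact (ht0 j hj).choose_spec
  choose s0 hs0 hs0' using NH
  let s : Ordinal.{u} → Ordinal.{u} := fun j => if h : j < K.ord then s0 j h else 0
  have hs : ∀ j, j < K.ord → s j < K.ord := by
    intro j hj
    have : s j = s0 j hj := dif_pos hj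
    rw [this]
    exact hs0 j hj
  have hs' : ∀ j₀, j₀ < K.ord → ∀ j, s j₀ ≤ j → j < K.ord →
      L j ∈ pcfS {l | ∃ j', j₀ ≤ j' ∧ j' < s j₀ ∧ l = L j'} := by
    intro j₀ hj₀ j h1 h2
    have : s j₀ = s0 j₀ hj₀ := dif_pos hj₀
    rw [this] at h1 ⊢
    exact hs0' j₀ hj₀ j h1 h2
  -- indices below `K`
  let J : Type u := K.ord.ToType
  let v : J → Ordinal.{u} := fun j => (Ordinal.ToType.mk.symm j).1
  have hv : ∀ j, v j < K.ord := fun j => (Ordinal.ToType.mk.symm j).2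
  have hv' : ∀ i, i < K.ord → ∃ j, v j = i := by
    intro i hi
    refine ⟨Ordinal.ToType.mk ⟨i, hi⟩, ?_⟩
    simp [v]
  have hJ : #J ≤ μ := by
    have : #J = K := Cardinal.mk_ord_toType K
    rw [this]; exact hKμ
  -- the small sets
  have hXA : #{p | c p ∈ A} ≤ κ := by
    have h1 : Cardinal.lift.{u+1} #{p | c p ∈ A} ≤ #A :=
      lift_mk_le_of_inj (fun p : {p | c p ∈ A} => (⟨c p.1, p.2⟩ : A))
        (fun i j h => Subtype.ext (hc (Subtype.mk.inj h)))
    exact Cardinal.lift_le.1 (h1.trans hAκ)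
  have hXs : ∀ j₀, j₀ < K.ord → #{p | ∃ j', j₀ ≤ j' ∧ j' < s j₀ ∧ p = t j'} ≤ κ := by
    intro j₀ hj₀
    have h1 : Cardinal.lift.{u+1} #{p | ∃ j', j₀ ≤ j' ∧ j' < s j₀ ∧ p = t j'} ≤
        #(Iio (s j₀)) := by
      refine lift_mk_le_of_inj (fun p : {p | ∃ j', j₀ ≤ j' ∧ j' < s j₀ ∧ p = t j'} =>
        (⟨p.2.choose, p.2.choose_spec.2.1⟩ : Iio (s j₀))) ?_
      intro p q h
      have h2 : p.2.choose = q.2.choose := Subtype.mk.inj h
      refine Subtype.ext ?_
      rw [p.2.choose_spec.2.2, q.2.choose_spec.2.2, h2]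
    rw [Cardinal.mk_Iio_ordinal] at h1
    refine (Cardinal.lift_le.1 h1).trans ?_
    exact Order.lt_succ_iff.1 (Cardinal.lt_ord.1 (hs j₀ hj₀))
  -- the ultrafilters
  have hinl : ∀ j : J, ∃ D : Ultrafilter P, HasCof D (fun p => (c p).ord) (c (t (v j))) ∧
      {p | c p ∈ A} ∈ D := by
    intro j
    rw [ht _ (hv j)]
    exact exists_uf_on hc (by rw [hcU]; exact subset_union_left) (TM _ (hv j))
  have hinr : ∀ j₀ j : J, s (v j₀) ≤ v j → ∃ D : Ultrafilter P,
      HasCof D (fun p => (c p).ord) (c (t (v j))) ∧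
      {p | ∃ j', v j₀ ≤ j' ∧ j' < s (v j₀) ∧ p = t j'} ∈ D := by
    intro j₀ j h
    rw [ht _ (hv j)]
    obtain ⟨D, h1, h2⟩ := exists_uf_on hc (s := {l | ∃ j', v j₀ ≤ j' ∧ j' < s (v j₀) ∧ l = L j'})
      (by
        rintro l ⟨j', h1, h2, rfl⟩
        rw [hcU]
        exact Or.inr ⟨j', h2.trans (hs _ (hv j₀)), rfl⟩)
      (hs' _ (hv j₀) _ h (hv j))
    refine ⟨D, h1, Filter.mem_of_superset h2 ?_⟩
    rintro p ⟨j', h3, h4, h5⟩
    refine ⟨j', h3, h4, hc ?_⟩
    rw [ht _ (h4.trans (hs _ (hv j₀)))]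
    exact h5
  have hQ : ∀ q : J ⊕ (J × J), ∃ (D : Ultrafilter P) (X : Set P) (l : P), X ∈ D ∧ #X ≤ κ ∧
      HasCof D (fun p => (c p).ord) (c l) ∧
      (∀ j, q = Sum.inl j → l = t (v j) ∧ {p | c p ∈ A} ∈ D) ∧
      (∀ j₀ j, q = Sum.inr (j₀, j) → s (v j₀) ≤ v j →
        l = t (v j) ∧ {p | ∃ j', v j₀ ≤ j' ∧ j' < s (v j₀) ∧ p = t j'} ∈ D) := by
    rintro (j | ⟨j₀, j⟩)
    · obtain ⟨D, h1, h2⟩ := hinl j
      refine ⟨D, _, t (v j), h2, hXA, h1, ?_, ?_⟩
      · intro j' h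
        rw [← Sum.inl_injective h]
        exact ⟨rfl, h2⟩
      · intro _ _ h
        exact absurd h Sum.inl_ne_inr
    · by_cases hle : s (v j₀) ≤ v j
      · obtain ⟨D, h1, h2⟩ := hinr j₀ j hle
        refine ⟨D, _, t (v j), h2, hXs _ (hv j₀), h1, ?_, ?_⟩
        · intro _ h
          exact absurd h Sum.inr_ne_inl
        · intro i₀ i h _
          have h3 := Sum.inr_injective h
          obtain ⟨rfl, rfl⟩ := Prod.mk.inj h3
          exact ⟨rfl, h2⟩
      · obtain ⟨D, h1, h2⟩ := hinl j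
        refine ⟨D, _, t (v j), h2, hXA, h1, ?_, ?_⟩
        · intro _ h
          exact absurd h Sum.inr_ne_inl
        · intro i₀ i h h4
          have h3 := Sum.inr_injective h
          obtain ⟨rfl, rfl⟩ := Prod.mk.inj h3
          exact absurd h4 hle
  choose D X l h1 h2 h3 h4 h5 using hQ
  have hQμ : #(J ⊕ (J × J)) ≤ μ := by
    rw [Cardinal.mk_sum, Cardinal.lift_id, Cardinal.mk_prod, Cardinal.lift_id]
    simp only [Cardinal.lift_id]
    refine Cardinal.add_le_of_le hμ0 hJ ?_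
    exact (mul_le_mul' hJ hJ).trans (Cardinal.mul_eq_self hμ0).le
  let T : Data.{u} :=
    { P := P, Q := J ⊕ (J × J), κ := κ, μ := μ, c := c, D := D, X := X, lam := l
      hκ := h0, hκμ := hκμ, inj := hc, reg := hreg, hμc := hμc, hP := hP, hQ := hQμ
      hX := h1, hXκ := h2, cof := h3 }
  let H : Theta T :=
    { a := {p | c p ∈ A}, t := t, s := s
      ha := hXA
      hat := by
        intro x hx j hj
        show c x < c (t j)
        rw [ht j hj]
        exact hx.2.2.trans (hαL j)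
      ht := by
        intro j j' h h'
        show c (t j) < c (t j')
        rw [ht j (h.trans h'), ht j' h']
        exact hLlt _ _ h
      hs := hs
      hqa := by
        intro j hj
        obtain ⟨i, hi⟩ := hv' j hj
        refine ⟨Sum.inl i, ?_, ?_⟩
        · rw [← hi]; exact (h4 (Sum.inl i) i rfl).1
        · exact (h4 (Sum.inl i) i rfl).2
      hqt := by
        intro j₀ hj₀ j hle hj
        obtain ⟨i₀, hi₀⟩ := hv' j₀ hj₀
        obtain ⟨i, hi⟩ := hv' j hj
        have h6 := h5 (Sum.inr (i₀, i)) i₀ i rfl (by rw [hi₀, hi]; exact hle)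
        refine ⟨Sum.inr (i₀, i), ?_, ?_⟩
        · rw [← hi]; exact h6.1
        · have h7 := h6.2
          rw [hi₀] at h7
          exact h7 }
  refine ⟨T, H, rfl, rfl, ?_⟩
  show c '' {p | c p ∈ A} = A
  ext x
  constructor
  · rintro ⟨p, hp, rfl⟩
    exact hp
  · intro hx
    have : x ∈ range c := by rw [hcU]; exact Or.inl hx
    obtain ⟨p, rfl⟩ := this
    exact ⟨p, hx, rfl⟩

end Helper55.CP
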